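import Mathlib

set_option autoImplicit false

/-! Linear recurrences all of whose characteristic roots lie in the open unit disc tend to zero. -/

open Polynomial Filter Topology

namespace Pool.Agent.D0H52.Pisot

/-- the shift of sequences -/
noncomputable def S : Module.End ℂ (ℕ → ℂ) where
  toFun u := fun n => u (n + 1)
  map_add' _ _ := rfl
  map_smul' _ _ := rfl

lemma S_apply (u : ℕ → ℂ) (n : ℕ) : S u n = u (n + 1) := rfl

lemma S_pow (k : ℕ) (u : ℕ → ℂ) (n : ℕ) : (S ^ k) u n = u (n + k) := by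
  induction k generalizing u n with
  | zero => simp
  | succ k ih =>
    rw [pow_succ, Module.End.mul_apply, ih, S_apply]
    congr 1

lemma aeval_S (Q : ℂ[X]) (u : ℕ → ℂ) (n : ℕ) :
    (aeval S Q) u n = ∑ k ∈ Finset.range (Q.natDegree + 1), Q.coeff k * u (n + k) := by
  rw [aeval_eq_sum_range, LinearMap.sum_apply, Finset.sum_apply]
  refine Finset.sum_congr rfl fun k _ => ?_
  rw [LinearMap.smul_apply, Pi.smul_apply, S_pow, smul_eq_mul]

lemma tendsto_of_factor {l : ℂ} (hl : ‖l‖ < 1) {u : ℕ → ℂ}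
    (h : Tendsto (fun n => u (n + 1) - l * u n) atTop (𝓝 0)) : Tendsto u atTop (𝓝 0) := by
  rw [Metric.tendsto_atTop]
  intro ε hε
  rw [Metric.tendsto_atTop] at h
  have hl' : 0 < 1 - ‖l‖ := by linarith
  obtain ⟨N, hN⟩ := h (ε / 2 * (1 - ‖l‖)) (by positivity)
  have key : ∀ k, ‖u (N + k)‖ ≤ ‖l‖ ^ k * ‖u N‖ + ε / 2 := by
    intro k
    induction k with
    | zero => simp; positivity
    | succ k ih =>
      have h1 := hN (N + k) (by omega)
      rw [dist_zero_right] at h1
      have h2 : ‖u (N + k + 1)‖ ≤ ‖u (N + k + 1) - l * u (N + k)‖ + ‖l * u (N + k)‖ := by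
        have := norm_add_le (u (N + k + 1) - l * u (N + k)) (l * u (N + k))
        simpa using this
      rw [norm_mul] at h2
      have h3 : ‖l‖ * ‖u (N + k)‖ ≤ ‖l‖ * (‖l‖ ^ k * ‖u N‖ + ε / 2) :=
        mul_le_mul_of_nonneg_left ih (norm_nonneg l)
      rw [show N + (k + 1) = N + k + 1 by ring, pow_succ]
      nlinarith
  have h4 : Tendsto (fun k : ℕ => ‖l‖ ^ k * ‖u N‖) atTop (𝓝 0) := by
    have := (tendsto_pow_atTop_nhds_zero_of_lt_one (norm_nonneg l) hl).mul_const ‖u N‖
    simpa using this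
  rw [Metric.tendsto_atTop] at h4
  obtain ⟨K, hK⟩ := h4 (ε / 2) (by positivity)
  refine ⟨N + K, fun n hn => ?_⟩
  obtain ⟨j, rfl⟩ : ∃ j, n = N + (K + j) := ⟨n - N - K, by omega⟩
  rw [dist_zero_right]
  have h5 := hK (K + j) (by omega)
  rw [dist_zero_right, Real.norm_of_nonneg (by positivity)] at h5
  linarith [key (K + j)]

lemma stab (s : Multiset ℂ) : (∀ z ∈ s, ‖z‖ < 1) → ∀ u : ℕ → ℂ,
    Tendsto ((aeval S (s.map fun a => X - C a).prod) u) atTop (𝓝 0) → Tendsto u atTop (𝓝 0) := by
  induction s using Multiset.induction_on with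
  | empty => intro _ u h; simpa using h
  | cons a s ih =>
    intro hs u h
    rw [Multiset.map_cons, Multiset.prod_cons, map_mul, Module.End.mul_apply] at h
    apply ih (fun z hz => hs z (Multiset.mem_cons_of_mem hz))
    apply tendsto_of_factor (hs a (Multiset.mem_cons_self a s))
    refine h.congr fun n => ?_
    rw [map_sub, aeval_X, aeval_C, LinearMap.sub_apply, Pi.sub_apply, S_apply,
      Module.algebraMap_end_apply, Pi.smul_apply, smul_eq_mul]

/-- A sequence annihilated by a monic polynomial with all roots in the open unit disc tends to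
zero. -/
lemma stab_poly {Q : ℂ[X]} (hQ : Q.Monic) (hr : ∀ z, Q.IsRoot z → ‖z‖ < 1) (u : ℕ → ℂ)
    (h : ∀ n, (aeval S Q) u n = 0) : Tendsto u atTop (𝓝 0) := by
  have hsp : Q = (Q.roots.map fun a => X - C a).prod := by
    have := (IsAlgClosed.splits Q).eq_prod_roots_of_monic hQ
    exact this
  apply stab Q.roots (fun z hz => hr z (isRoot_of_mem_roots hz))
  rw [← hsp]
  have : (aeval S Q) u = 0 := funext h
  rw [this]
  exact tendsto_const_nhds

end Pool.Agent.D0H52.Pisot
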