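import Mathlib
import Pool.Agent.D0H52.Stab

set_option autoImplicit false

/-! The Pisot numbers `α ^ (n + 1) = 1 + α + ⋯ + α ^ (n - 1)`, `n` even, and multiples `t` for which
all `⌊t α ^ k⌋` are divisible by a given number. -/

open Polynomial Filter Topology Finset

namespace Pool.Agent.D0H52.Pisot

lemma key_id {R : Type} [CommRing R] (n : ℕ) (z : R) (h : z ^ (n + 1) = ∑ k ∈ range n, z ^ k) :
    z ^ n * (z ^ 2 - z - 1) = -1 := by
  have h1 : (∑ k ∈ range n, z ^ k) * (z - 1) = z ^ n - 1 := geom_sum_mul z n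
  rw [← h] at h1
  linear_combination h1

lemma normSq_id (z : ℂ) : Complex.normSq (z ^ 2 - z - 1) = (1 + ‖z‖ - ‖z‖ ^ 2) ^ 2 +
    (‖z‖ - z.re) * (4 * (z.re + ‖z‖) + 2 * (‖z‖ ^ 2 - 1)) := by
  have h : ‖z‖ ^ 2 = z.re * z.re + z.im * z.im := by
    rw [← Complex.normSq_eq_norm_sq, Complex.normSq_apply]
  have h1 : z ^ 2 - z - 1 = z * z - z - 1 := by ring
  rw [h1, Complex.normSq_apply]
  simp only [Complex.sub_re, Complex.mul_re, Complex.sub_im, Complex.mul_im, Complex.one_re,
    Complex.one_im]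
  have h2 : z.im * z.im = ‖z‖ ^ 2 - z.re * z.re := by linarith
  set r := ‖z‖
  set x := z.re
  set y := z.im
  have h3 : y ^ 2 = r ^ 2 - x ^ 2 := by nlinarith
  have h4 : y ^ 4 = (r ^ 2 - x ^ 2) ^ 2 := by rw [← h3]; ring
  have e1 : (x * x - y * y - x - 1) * (x * x - y * y - x - 1) +
      (x * y + y * x - y - 0) * (x * y + y * x - y - 0) =
      y ^ 4 + y ^ 2 * (-2 * (x * x - x - 1) + (2 * x - 1) ^ 2) + (x * x - x - 1) ^ 2 := by ring
  rw [e1, h4, h3]
  ring

lemma perron (n : ℕ) {z : ℂ} (h : z ^ (n + 1) = ∑ k ∈ range n, z ^ k) :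
    ‖z‖ ^ (n + 1) ≤ ∑ k ∈ range n, ‖z‖ ^ k := by
  rw [← norm_pow, h]
  refine (norm_sum_le _ _).trans (le_of_eq ?_)
  simp [norm_pow]

lemma root_cases {n : ℕ} (hn : Even n) (hn2 : 2 ≤ n) {z : ℂ}
    (h : z ^ (n + 1) = ∑ k ∈ range n, z ^ k) :
    ‖z‖ < 1 ∨ ∃ ρ : ℝ, 1 < ρ ∧ z = ρ ∧ ρ ^ (n + 1) = ∑ k ∈ range n, ρ ^ k := by
  by_cases h1 : ‖z‖ < 1
  · exact Or.inl h1
  right
  push Not at h1
  have hid := key_id n z h
  have hnorm : (‖z‖ ^ n) ^ 2 * Complex.normSq (z ^ 2 - z - 1) = 1 := by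
    have := congrArg Complex.normSq hid
    rw [map_mul, map_pow, Complex.normSq_neg, map_one, Complex.normSq_eq_norm_sq] at this
    rw [← this]
    ring
  rw [normSq_id] at hnorm
  have hre : z.re ≤ ‖z‖ := Complex.re_le_norm z
  have hre' : -‖z‖ ≤ z.re := (abs_le.1 (Complex.abs_re_le_norm z)).1
  rcases h1.eq_or_lt with h1 | h1
  · exfalso
    rw [← h1] at hnorm
    norm_num at hnorm
    have hsq : z.re * z.re + z.im * z.im = 1 := by
      rw [← Complex.normSq_apply, Complex.normSq_eq_norm_sq, ← h1]; norm_num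
    rcases hnorm with hx | hx
    · have hx1 : z.re = 1 := by linarith
      have hy : z.im = 0 := by
        rw [hx1] at hsq; nlinarith
      have hz : z = 1 := Complex.ext (by simpa using hx1) (by simpa using hy)
      rw [hz] at h
      simp at h
      have : (n : ℂ) = 1 := h.symm
      have : n = 1 := by exact_mod_cast this
      omega
    · have hx1 : z.re = -1 := by linarith
      have hy : z.im = 0 := by
        rw [hx1] at hsq; nlinarith
      have hz : z = -1 := Complex.ext (by simpa using hx1) (by simpa using hy)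
      rw [hz, hn.neg_one_pow] at hid
      norm_num at hid
  · have hper := perron n h
    set ρ := ‖z‖ with hρ
    have hρ0 : 0 < ρ := by linarith
    have hf : ρ ^ n * (ρ ^ 2 - ρ - 1) + 1 ≤ 0 := by
      have h2 : (∑ k ∈ range n, ρ ^ k) * (ρ - 1) = ρ ^ n - 1 := geom_sum_mul ρ n
      have h3 : ρ ^ (n + 1) * (ρ - 1) ≤ (∑ k ∈ range n, ρ ^ k) * (ρ - 1) :=
        mul_le_mul_of_nonneg_right hper (by linarith)
      rw [h2] at h3
      have e : ρ ^ n * (ρ ^ 2 - ρ - 1) + 1 = ρ ^ (n + 1) * (ρ - 1) - (ρ ^ n - 1) := by ring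
      rw [e]; linarith
    have hpn : 0 < ρ ^ n := by positivity
    have h4 : 1 ≤ ρ ^ n * (1 + ρ - ρ ^ 2) := by nlinarith
    have h5 : 1 ≤ (ρ ^ n) ^ 2 * (1 + ρ - ρ ^ 2) ^ 2 := by
      rw [← mul_pow]; nlinarith
    have h6 : (ρ ^ n) ^ 2 * ((ρ - z.re) * (4 * (z.re + ρ) + 2 * (ρ ^ 2 - 1))) ≤ 0 := by
      nlinarith
    have h7 : (ρ - z.re) * (4 * (z.re + ρ) + 2 * (ρ ^ 2 - 1)) ≤ 0 := by
      by_contra hcon
      push Not at hcon
      have : 0 < (ρ ^ n) ^ 2 * ((ρ - z.re) * (4 * (z.re + ρ) + 2 * (ρ ^ 2 - 1))) := by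
        apply mul_pos _ hcon
        positivity
      linarith
    have h8 : 0 < 4 * (z.re + ρ) + 2 * (ρ ^ 2 - 1) := by nlinarith
    have h9 : z.re = ρ := by
      apply le_antisymm hre
      by_contra hcon
      push Not at hcon
      have := mul_pos (sub_pos.2 hcon) h8
      linarith
    have hsq : z.re * z.re + z.im * z.im = ρ ^ 2 := by
      rw [← Complex.normSq_apply, Complex.normSq_eq_norm_sq]
    have hy : z.im = 0 := by
      rw [h9] at hsq; nlinarith
    have hz : z = (ρ : ℂ) := Complex.ext (by simpa using h9) (by simpa using hy)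
    refine ⟨ρ, h1, hz, ?_⟩
    rw [hz] at h
    exact_mod_cast h

lemma root_unique {n : ℕ} (hn2 : 2 ≤ n) {a b : ℝ} (ha : 0 < a) (hab : a < b)
    (h1 : a ^ (n + 1) = ∑ k ∈ range n, a ^ k) (h2 : b ^ (n + 1) = ∑ k ∈ range n, b ^ k) : False := by
  have hb : 0 < b := ha.trans hab
  set c := b / a with hc
  have hc1 : 1 < c := by rw [hc, one_lt_div ha]; exact hab
  have hbc : b = c * a := by rw [hc]; field_simp
  have h3 : ∑ k ∈ range n, b ^ k ≤ c ^ (n - 1) * ∑ k ∈ range n, a ^ k := by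
    rw [mul_sum]
    refine sum_le_sum fun k hk => ?_
    rw [mem_range] at hk
    rw [hbc, mul_pow]
    exact mul_le_mul_of_nonneg_right (pow_le_pow_right₀ hc1.le (by omega)) (by positivity)
  rw [← h2, ← h1, hbc, mul_pow] at h3
  have h4 : c ^ (n + 1) ≤ c ^ (n - 1) := le_of_mul_le_mul_right h3 (by positivity)
  have h5 : c ^ (n - 1) < c ^ (n + 1) := pow_lt_pow_right₀ hc1 (by omega)
  linarith

/-- the polynomial -/
noncomputable def P (n : ℕ) : ℂ[X] := X ^ (n + 1) - ∑ k ∈ range n, X ^ k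

lemma P_monic (n : ℕ) : (P n).Monic := by
  apply monic_X_pow_sub
  have h1 : (∑ k ∈ range n, (X : ℂ[X]) ^ k).degree < (n : WithBot ℕ) := by
    rw [degree_lt_iff_coeff_zero]
    intro j hj
    rw [finsetSum_coeff]
    refine sum_eq_zero fun k hk => ?_
    rw [mem_range] at hk
    rw [coeff_X_pow, if_neg (by omega)]
  exact h1.trans (by exact_mod_cast Nat.lt_succ_self n)

lemma P_eval (n : ℕ) (z : ℂ) : (P n).eval z = z ^ (n + 1) - ∑ k ∈ range n, z ^ k := by
  simp [P, eval_finsetSum]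

lemma P_act (n : ℕ) (u : ℕ → ℂ) (k : ℕ) :
    (aeval S (P n)) u k = u (k + (n + 1)) - ∑ j ∈ range n, u (k + j) := by
  rw [P, map_sub, map_pow, aeval_X, map_sum, LinearMap.sub_apply, Pi.sub_apply, S_pow,
    LinearMap.sum_apply, Finset.sum_apply]
  congr 1
  refine sum_congr rfl fun j _ => ?_
  rw [map_pow, aeval_X, S_pow]

/-- the sequence with `n + 1` initial values `c`, each later term being the sum of the terms at
distances `2, …, n + 1` before it -/
noncomputable def r (n : ℕ) (c : ℝ) (k : ℕ) : ℝ :=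
  if h : k < n + 1 then c else ∑ j ∈ (range n).attach, r n c (k - (n + 1) + j.1)
termination_by k
decreasing_by
  have := mem_range.1 j.2
  omega

lemma r_init {n : ℕ} {c : ℝ} {k : ℕ} (h : k < n + 1) : r n c k = c := by
  rw [r, dif_pos h]

lemma r_rec (n : ℕ) (c : ℝ) (k : ℕ) : r n c (k + (n + 1)) = ∑ j ∈ range n, r n c (k + j) := by
  rw [r, dif_neg (by omega), Finset.sum_attach (range n) (fun j => r n c (k + (n + 1) - (n + 1) + j))]
  refine sum_congr rfl fun j _ => ?_
  congr 1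
  omega

lemma r_int {n m : ℕ} (hn : 2 ≤ n) (k : ℕ) :
    ∃ s : ℕ, r n ((m : ℝ) / (n - 1)) k = (m : ℝ) / (n - 1) + m * s := by
  have hn1 : (0 : ℝ) < (n : ℝ) - 1 := by
    have : (2 : ℝ) ≤ n := by exact_mod_cast hn
    linarith
  induction k using Nat.strong_induction_on with
  | _ k ih =>
    by_cases h : k < n + 1
    · exact ⟨0, by rw [r_init h]; simp⟩
    · obtain ⟨i, rfl⟩ : ∃ i, k = i + (n + 1) := ⟨k - (n + 1), by omega⟩
      have hex : ∀ j, ∃ s : ℕ, j < n → r n ((m : ℝ) / (n - 1)) (i + j) = (m : ℝ) / (n - 1) + m * s := by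
        intro j
        by_cases hj : j < n
        · obtain ⟨s, hs⟩ := ih (i + j) (by omega)
          exact ⟨s, fun _ => hs⟩
        · exact ⟨0, fun h => absurd h hj⟩
      choose s hs using hex
      refine ⟨1 + ∑ j ∈ range n, s j, ?_⟩
      rw [r_rec, sum_congr rfl (fun j hj => hs j (mem_range.1 hj)), sum_add_distrib, sum_const,
        card_range, nsmul_eq_mul, ← mul_sum]
      push_cast
      field_simp
      ring

/-- **Main construction.** -/
theorem main {n m : ℕ} (hn : Even n) (hm : 1 ≤ m) (hmn : m + 2 ≤ n) {α : ℝ} (hα : 1 < α)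
    (h : α ^ (n + 1) = ∑ k ∈ range n, α ^ k) :
    ∃ t : ℝ, 0 < t ∧ ∀ k : ℕ, (m : ℤ) ∣ ⌊t * α ^ k⌋ := by
  have hn2 : 2 ≤ n := by omega
  have hn1 : (0 : ℝ) < (n : ℝ) - 1 := by
    have : (2 : ℝ) ≤ n := by exact_mod_cast hn2
    linarith
  have hαc : (α : ℂ) ^ (n + 1) = ∑ k ∈ range n, (α : ℂ) ^ k := by exact_mod_cast h
  set Q : ℂ[X] := P n /ₘ (X - C (α : ℂ)) with hQ
  have hroot : (P n).IsRoot (α : ℂ) := by
    rw [IsRoot, P_eval, hαc, sub_self]
  have hfac : (X - C (α : ℂ)) * Q = P n := mul_divByMonic_eq_iff_isRoot.2 hroot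
  have hQm : Q.Monic := by
    have h1 := P_monic n
    rw [← hfac] at h1
    exact (monic_X_sub_C _).of_mul_monic_left h1
  -- `Q α ≠ 0`
  have hQα : Q.eval (α : ℂ) ≠ 0 := by
    have h1 : (derivative (P n)).eval (α : ℂ) = Q.eval (α : ℂ) := by
      rw [← hfac, derivative_mul]
      simp
    rw [← h1]
    have h2 : (derivative (P n)).eval (α : ℂ) * α =
        (((n + 1 : ℕ) : ℝ) * α ^ (n + 1) - ∑ k ∈ range n, (k : ℝ) * α ^ k : ℝ) := by
      rw [P, derivative_sub, derivative_X_pow, derivative_sum]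
      simp only [derivative_X_pow, eval_sub, eval_mul, eval_finsetSum, eval_pow, eval_X, eval_C]
      push_cast
      rw [sub_mul, sum_mul]
      congr 1
      · ring
      · refine sum_congr rfl fun k _ => ?_
        rcases k with _ | k
        · simp
        · rw [Nat.add_sub_cancel]; ring
    intro h3
    rw [h3, zero_mul] at h2
    have h4 : ((n + 1 : ℕ) : ℝ) * α ^ (n + 1) - ∑ k ∈ range n, (k : ℝ) * α ^ k = 0 := by
      exact_mod_cast h2.symm
    rw [h, mul_sum, ← sum_sub_distrib] at h4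
    have h5 : 0 < ∑ k ∈ range n, (((n + 1 : ℕ) : ℝ) * α ^ k - (k : ℝ) * α ^ k) := by
      apply sum_pos
      · intro k hk
        rw [mem_range] at hk
        rw [← sub_mul]
        apply mul_pos
        · have : (k : ℝ) < (n + 1 : ℕ) := by exact_mod_cast (by omega : k < n + 1)
          linarith
        · positivity
      · exact ⟨0, by rw [mem_range]; omega⟩
    linarith
  have hQr : ∀ z, Q.IsRoot z → ‖z‖ < 1 := by
    intro z hz
    have h1 : (P n).eval z = 0 := by
      rw [← hfac, eval_mul, hz, mul_zero]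
    rw [P_eval, sub_eq_zero] at h1
    rcases root_cases hn hn2 h1 with h2 | ⟨ρ, h2, h3, h4⟩
    · exact h2
    · exfalso
      rcases lt_trichotomy ρ α with h5 | h5 | h5
      · exact root_unique hn2 (by linarith) h5 h4 h
      · rw [h3, h5] at hz
        exact hQα hz
      · exact root_unique hn2 (by linarith) h5 h h4
  -- the sequence
  set c : ℝ := (m : ℝ) / (n - 1) with hc
  have hc0 : 0 < c := by
    have : (1 : ℝ) ≤ m := by exact_mod_cast hm
    positivity
  have hc1 : c < 1 := by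
    rw [hc, div_lt_one hn1]
    have : (m : ℝ) + 2 ≤ n := by exact_mod_cast hmn
    linarith
  set u : ℕ → ℂ := fun k => (r n c k : ℂ) with hu
  have hPu : ∀ k, (aeval S (P n)) u k = 0 := by
    intro k
    rw [P_act, hu]
    simp only
    rw [r_rec]
    push_cast
    rw [sub_self]
  set E : ℕ → ℂ := (aeval S Q) u with hE
  have hE1 : ∀ k, E (k + 1) = α * E k := by
    intro k
    have h1 := hPu k
    rw [← hfac, map_mul, Module.End.mul_apply, ← hE, map_sub, aeval_X, aeval_C,
      LinearMap.sub_apply, Pi.sub_apply, S_apply, Module.algebraMap_end_apply, Pi.smul_apply,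
      smul_eq_mul, sub_eq_zero] at h1
    exact h1
  have hE2 : ∀ k, E k = α ^ k * E 0 := by
    intro k
    induction k with
    | zero => simp
    | succ k ih => rw [hE1, ih, pow_succ]; ring
  set tc : ℂ := E 0 / Q.eval (α : ℂ) with htc
  have hpow : ∀ k, (aeval S Q) (fun k => (α : ℂ) ^ k) k = α ^ k * Q.eval (α : ℂ) := by
    intro k
    rw [aeval_S, eval_eq_sum_range, mul_sum]
    refine sum_congr rfl fun j _ => ?_
    rw [pow_add]; ring
  have hlim : Tendsto (fun k => u k - tc * (α : ℂ) ^ k) atTop (𝓝 0) := by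
    apply stab_poly hQm hQr
    intro k
    have h1 : (fun k => u k - tc * (α : ℂ) ^ k) = u - tc • (fun k => (α : ℂ) ^ k) := by
      funext k; simp
    rw [h1, map_sub, map_smul, Pi.sub_apply, Pi.smul_apply, hpow, ← hE, hE2, htc, smul_eq_mul]
    field_simp
    ring
  set t : ℝ := tc.re with ht
  have hlim2 : Tendsto (fun k => r n c k - t * α ^ k) atTop (𝓝 0) := by
    have h1 := (Complex.continuous_re.tendsto 0).comp hlim
    refine (h1.congr fun k => ?_)
    simp only [Function.comp, hu, Complex.sub_re, Complex.ofReal_re]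
    rw [← Complex.ofReal_pow, Complex.re_mul_ofReal]
  rw [Metric.tendsto_atTop] at hlim2
  obtain ⟨K, hK⟩ := hlim2 (min c (1 - c)) (lt_min hc0 (by linarith))
  have hK' : ∀ k, K ≤ k → |r n c k - t * α ^ k| < c ∧ |r n c k - t * α ^ k| < 1 - c := by
    intro k hk
    have h1 := hK k hk
    rw [Real.dist_eq, sub_zero] at h1
    exact lt_min_iff.1 h1
  have ht0 : 0 < t := by
    obtain ⟨s, hs⟩ := r_int (m := m) hn2 K
    have h1 := (hK' K le_rfl).1
    rw [← hc] at hs
    have h2 : 0 < t * α ^ K := by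
      have h3 : (0 : ℝ) ≤ m * s := by positivity
      have := (abs_lt.1 h1).2
      rw [hs] at this
      linarith
    exact (pos_iff_pos_of_mul_pos h2).2 (by positivity)
  refine ⟨t * α ^ K, by positivity, fun k => ?_⟩
  obtain ⟨s, hs⟩ := r_int (m := m) hn2 (K + k)
  rw [← hc] at hs
  have h1 := hK' (K + k) (by omega)
  have h2 : ⌊t * α ^ K * α ^ k⌋ = (m * s : ℕ) := by
    rw [Int.floor_eq_iff]
    rw [mul_assoc, ← pow_add]
    have h3 := abs_lt.1 h1.1
    have h4 := abs_lt.1 h1.2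
    rw [hs] at h3 h4
    push_cast
    constructor <;> linarith
  rw [h2]
  push_cast
  exact dvd_mul_right _ _

end Pool.Agent.D0H52.Pisot
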